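import Mathlib

/-!
Slices of simplicial sets are cartesian closed, and pullback functors between slices have right
adjoints.
-/

set_option autoImplicit false

open CategoryTheory Limits MonoidalCategory CartesianMonoidalCategory

namespace Pool.Agent.H704Z.Homot

/-- In a slice of simplicial sets, `E × -` has a right adjoint (the exponential). -/
theorem prod_isLeftAdjoint {X : SSet.{0}} (E : Over X) :
    (prod.functor.obj E : Over X ⥤ Over X).IsLeftAdjoint := by
  let : CartesianMonoidalCategory (Over X) := CartesianMonoidalCategory.ofHasFiniteProducts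
  let : MonoidalClosed (Over X) :=
    cartesianClosedOfEquiv (overEquivPresheafCostructuredArrow X).symm
  exact Functor.isLeftAdjoint_of_iso (F := tensorLeft E) (tensorLeftIsoProd E)

/-- Pulling back along a map of simplicial sets has a right adjoint. -/
theorem pullback_isLeftAdjoint {X Y : SSet.{0}} (f : Y ⟶ X) :
    (Over.pullback f).IsLeftAdjoint := by
  let : ChosenPullbacks SSet.{0} := fun g => ChosenPullbacksAlong.ofHasPullbacksAlong g
  let : CartesianMonoidalCategory (Over X) := ChosenPullbacksAlong.cartesianMonoidalCategoryOver X
  let : BraidedCategory (Over X) := BraidedCategory.ofCartesianMonoidalCategory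
  let : MonoidalClosed (Over X) :=
    cartesianClosedOfEquiv (overEquivPresheafCostructuredArrow X).symm
  let : ChosenPullbacks (Over X) := fun g => ChosenPullbacksAlong.ofHasPullbacksAlong g
  have h1 : (toOver (Over.mk f)).IsLeftAdjoint := (Over.toOverSectionsAdj (Over.mk f)).isLeftAdjoint
  have h2 : (Over.iteratedSliceForward (Over.mk f)).IsLeftAdjoint :=
    (Over.iteratedSliceEquiv (Over.mk f)).toAdjunction.isLeftAdjoint
  have h3 : (toOver (Over.mk f) ⋙ Over.iteratedSliceForward (Over.mk f)).IsLeftAdjoint :=
    ((Over.toOverSectionsAdj (Over.mk f)).comp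
      (Over.iteratedSliceEquiv (Over.mk f)).toAdjunction).isLeftAdjoint
  have h4 := Functor.isLeftAdjoint_of_iso (toOverIteratedSliceForwardIsoPullback f)
  exact Functor.isLeftAdjoint_of_iso (ChosenPullbacksAlong.pullbackIsoOverPullback f)

end Pool.Agent.H704Z.Homot
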