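import Mathlib
import Pool.Agent.H704Z.Homot.Adj

/-!
Many-sorted algebraic signatures, first-order formulas in context, intuitionistic natural
deduction in context, and the homotopical interpretation in Kan complexes.
-/

set_option autoImplicit false

open CategoryTheory Limits MonoidalCategory CartesianMonoidalCategory

namespace Pool.Agent.H704Z.Homot

/-- A many-sorted algebraic signature: sorts, and function symbols with a list of argument sorts
and a value sort. -/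
structure Sig where
  Srt : Type
  Fn : Type
  dom : Fn → List Srt
  cod : Fn → Srt

/-- Variables of sort `A` in a context (a list of sorts, the head being the last variable). -/
inductive Var {S : Type} : List S → S → Type
  | here {Γ : List S} {A : S} : Var (A :: Γ) A
  | there {Γ : List S} {A B : S} : Var Γ A → Var (B :: Γ) A

variable {σ : Sig}

/-- Terms of sort `A` in the context `Γ`. A function symbol is applied to one term for each of
its argument places. -/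
inductive Tm (σ : Sig) (Γ : List σ.Srt) : σ.Srt → Type
  | var {A : σ.Srt} : Var Γ A → Tm σ Γ A
  | app (f : σ.Fn) (args : ∀ B : σ.Srt, Var (σ.dom f) B → Tm σ Γ B) : Tm σ Γ (σ.cod f)

/-- First-order formulas in the context `Γ`. -/
inductive Fm (σ : Sig) : List σ.Srt → Type
  | top {Γ : List σ.Srt} : Fm σ Γ
  | bot {Γ : List σ.Srt} : Fm σ Γ
  | eq {Γ : List σ.Srt} {A : σ.Srt} : Tm σ Γ A → Tm σ Γ A → Fm σ Γ
  | and {Γ : List σ.Srt} : Fm σ Γ → Fm σ Γ → Fm σ Γ
  | or {Γ : List σ.Srt} : Fm σ Γ → Fm σ Γ → Fm σ Γ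
  | imp {Γ : List σ.Srt} : Fm σ Γ → Fm σ Γ → Fm σ Γ
  | all {Γ : List σ.Srt} (A : σ.Srt) : Fm σ (A :: Γ) → Fm σ Γ
  | ex {Γ : List σ.Srt} (A : σ.Srt) : Fm σ (A :: Γ) → Fm σ Γ

/-- Negation: `φ ⇒ ⊥`. -/
def Fm.neg {Γ : List σ.Srt} (φ : Fm σ Γ) : Fm σ Γ := φ.imp .bot

/-- A substitution: a term in the context `Δ` for each variable of `Γ`. -/
def Sub (σ : Sig) (Γ Δ : List σ.Srt) : Type := ∀ B : σ.Srt, Var Γ B → Tm σ Δ B

/-- Substitution in terms. -/
def Tm.subst {Γ Δ : List σ.Srt} (θ : Sub σ Γ Δ) : ∀ {A : σ.Srt}, Tm σ Γ A → Tm σ Δ A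
  | _, .var v => θ _ v
  | _, .app f args => .app f fun B v => (args B v).subst θ

/-- The weakening substitution, from `Γ` to `Γ` with one fresh variable of sort `A`. -/
def Sub.wk (Γ : List σ.Srt) (A : σ.Srt) : Sub σ Γ (A :: Γ) := fun _ v => .var (.there v)

/-- A substitution pushed under a bound variable of sort `A`. -/
def Sub.lift {Γ Δ : List σ.Srt} (θ : Sub σ Γ Δ) (A : σ.Srt) : Sub σ (A :: Γ) (A :: Δ)
  | _, .here => .var .here
  | _, .there v => (θ _ v).subst (Sub.wk Δ A)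

/-- The substitution of the term `t` for the last variable. -/
def Sub.inst {Γ : List σ.Srt} {A : σ.Srt} (t : Tm σ Γ A) : Sub σ (A :: Γ) Γ
  | _, .here => t
  | _, .there v => .var v

/-- Substitution in formulas. -/
def Fm.subst : ∀ {Γ Δ : List σ.Srt}, Sub σ Γ Δ → Fm σ Γ → Fm σ Δ
  | _, _, _, .top => .top
  | _, _, _, .bot => .bot
  | _, _, θ, .eq s t => .eq (s.subst θ) (t.subst θ)
  | _, _, θ, .and φ ψ => .and (φ.subst θ) (ψ.subst θ)
  | _, _, θ, .or φ ψ => .or (φ.subst θ) (ψ.subst θ)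
  | _, _, θ, .imp φ ψ => .imp (φ.subst θ) (ψ.subst θ)
  | _, _, θ, .all A φ => .all A (φ.subst (θ.lift A))
  | _, _, θ, .ex A φ => .ex A (φ.subst (θ.lift A))

/-- Intuitionistic natural deduction with equality, in context: `Prf Γ Φ φ` says that `φ` is
derivable from the hypotheses `Φ`, all formulas being in the context `Γ`. -/
inductive Prf : (Γ : List σ.Srt) → List (Fm σ Γ) → Fm σ Γ → Prop
  | hyp {Γ Φ} {φ : Fm σ Γ} : φ ∈ Φ → Prf Γ Φ φ
  | topI {Γ Φ} : Prf Γ Φ .top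
  | botE {Γ Φ} {φ : Fm σ Γ} : Prf Γ Φ .bot → Prf Γ Φ φ
  | andI {Γ Φ} {φ ψ : Fm σ Γ} : Prf Γ Φ φ → Prf Γ Φ ψ → Prf Γ Φ (φ.and ψ)
  | andE₁ {Γ Φ} {φ ψ : Fm σ Γ} : Prf Γ Φ (φ.and ψ) → Prf Γ Φ φ
  | andE₂ {Γ Φ} {φ ψ : Fm σ Γ} : Prf Γ Φ (φ.and ψ) → Prf Γ Φ ψ
  | orI₁ {Γ Φ} {φ ψ : Fm σ Γ} : Prf Γ Φ φ → Prf Γ Φ (φ.or ψ)
  | orI₂ {Γ Φ} {φ ψ : Fm σ Γ} : Prf Γ Φ ψ → Prf Γ Φ (φ.or ψ)
  | orE {Γ Φ} {φ ψ χ : Fm σ Γ} :
      Prf Γ Φ (φ.or ψ) → Prf Γ (φ :: Φ) χ → Prf Γ (ψ :: Φ) χ → Prf Γ Φ χ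
  | impI {Γ Φ} {φ ψ : Fm σ Γ} : Prf Γ (φ :: Φ) ψ → Prf Γ Φ (φ.imp ψ)
  | impE {Γ Φ} {φ ψ : Fm σ Γ} : Prf Γ Φ (φ.imp ψ) → Prf Γ Φ φ → Prf Γ Φ ψ
  | allI {Γ Φ} {A : σ.Srt} {φ : Fm σ (A :: Γ)} :
      Prf (A :: Γ) (Φ.map (Fm.subst (Sub.wk Γ A))) φ → Prf Γ Φ (.all A φ)
  | allE {Γ Φ} {A : σ.Srt} {φ : Fm σ (A :: Γ)} (t : Tm σ Γ A) :
      Prf Γ Φ (.all A φ) → Prf Γ Φ (φ.subst (Sub.inst t))
  | exI {Γ Φ} {A : σ.Srt} {φ : Fm σ (A :: Γ)} (t : Tm σ Γ A) :
      Prf Γ Φ (φ.subst (Sub.inst t)) → Prf Γ Φ (.ex A φ)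
  | exE {Γ Φ} {A : σ.Srt} {φ : Fm σ (A :: Γ)} {ψ : Fm σ Γ} :
      Prf Γ Φ (.ex A φ) →
      Prf (A :: Γ) (φ :: Φ.map (Fm.subst (Sub.wk Γ A))) (ψ.subst (Sub.wk Γ A)) → Prf Γ Φ ψ
  | eqI {Γ Φ} {A : σ.Srt} (t : Tm σ Γ A) : Prf Γ Φ (.eq t t)
  | eqE {Γ Φ} {A : σ.Srt} {φ : Fm σ (A :: Γ)} {s t : Tm σ Γ A} :
      Prf Γ Φ (.eq s t) → Prf Γ Φ (φ.subst (Sub.inst s)) → Prf Γ Φ (φ.subst (Sub.inst t))

/-- A sentence is provable if it is derivable from no hypotheses in the empty context. -/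
def Provable (φ : Fm σ []) : Prop := Prf [] [] φ

/-- The product `X A₁ × ⋯ × X Aₙ` over a context. -/
noncomputable def ctx {S : Type} (X : S → SSet.{0}) : List S → SSet.{0}
  | [] => 𝟙_ SSet.{0}
  | A :: Γ => ctx X Γ ⊗ X A

/-- The projection of the product onto the factor of a variable. -/
noncomputable def proj {S : Type} (X : S → SSet.{0}) :
    ∀ {Γ : List S} {A : S}, Var Γ A → (ctx X Γ ⟶ X A)
  | _, _, .here => snd _ _
  | _, _, .there v => fst _ _ ≫ proj X v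

/-- The map into the product with given components. -/
noncomputable def tuple {S : Type} (X : S → SSet.{0}) {W : SSet.{0}} :
    ∀ Δ : List S, (∀ B : S, Var Δ B → (W ⟶ X B)) → (W ⟶ ctx X Δ)
  | [], _ => toUnit W
  | A :: Δ, g => lift (tuple X Δ fun B v => g B (.there v)) (g A .here)

/-- A structure in Kan complexes: a Kan complex for each sort (possibly empty) and a simplicial
map for each function symbol. -/
structure KanStr (σ : Sig) where
  obj : σ.Srt → SSet.{0}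
  kan : ∀ A, SSet.KanComplex (obj A)
  fn : ∀ f : σ.Fn, ctx obj (σ.dom f) ⟶ obj (σ.cod f)

/-- The interpretation of a term as a simplicial map. -/
noncomputable def KanStr.tm (M : KanStr σ) {Γ : List σ.Srt} :
    ∀ {A : σ.Srt}, Tm σ Γ A → (ctx M.obj Γ ⟶ M.obj A)
  | _, .var v => proj M.obj v
  | _, .app f args => tuple M.obj (σ.dom f) (fun B v => M.tm (args B v)) ≫ M.fn f

open Simplicial in
/-- The endpoint map `X^I ⟶ X` at the vertex `i` of `Δ[1]`, where `X^I` is the internal hom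
from `Δ[1]` to `X`. -/
noncomputable def endpoint (X : SSet.{0}) (i : Fin 2) : (ihom (Δ[1] : SSet.{0})).obj X ⟶ X :=
  lift (SSet.const (SSet.stdSimplex.obj₀Equiv.symm i)) (𝟙 _) ≫ (ihom.ev (Δ[1] : SSet.{0})).app X

/-- The path space `X^I ⟶ X × X`, as an object over `X × X`. -/
noncomputable def pathSpace (X : SSet.{0}) : Over (X ⊗ X) :=
  Over.mk (lift (endpoint X 0) (endpoint X 1))

/-- The exponential `E ⇒ F` in the slice over `X`: the value at `F` of the right adjoint of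
`E × -`. -/
noncomputable def expOver {X : SSet.{0}} (E F : Over X) : Over X :=
  haveI := prod_isLeftAdjoint E
  (prod.functor.obj E).rightAdjoint.obj F

/-- The right adjoint of pulling back along `p`. -/
noncomputable def forallAlong {X Y : SSet.{0}} (p : Y ⟶ X) : Over Y ⥤ Over X :=
  haveI := pullback_isLeftAdjoint p
  (Over.pullback p).rightAdjoint

/-- The left adjoint of pulling back along `p`. -/
noncomputable def existsAlong {X Y : SSet.{0}} (p : Y ⟶ X) : Over Y ⥤ Over X :=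
  haveI := (Over.mapPullbackAdj p).isRightAdjoint
  (Over.pullback p).leftAdjoint

/-- The homotopical interpretation of a formula in context, an object of the slice over the
product of the sorts of the context. -/
noncomputable def KanStr.interp (M : KanStr σ) :
    ∀ {Γ : List σ.Srt}, Fm σ Γ → Over (ctx M.obj Γ)
  | _, .top => Over.mk (𝟙 _)
  | _, .bot => Over.mk (initial.to _)
  | _, .eq (A := A) s t =>
      (Over.pullback (lift (M.tm s) (M.tm t))).obj (pathSpace (M.obj A))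
  | _, .and φ ψ => M.interp φ ⨯ M.interp ψ
  | _, .or φ ψ => M.interp φ ⨿ M.interp ψ
  | _, .imp φ ψ => expOver (M.interp φ) (M.interp ψ)
  | Γ, .all A φ => (forallAlong (fst (ctx M.obj Γ) (M.obj A))).obj (M.interp φ)
  | Γ, .ex A φ => (existsAlong (fst (ctx M.obj Γ) (M.obj A))).obj (M.interp φ)

/-- A sentence is true in `M` if its interpretation is a non-empty simplicial set. -/
def KanStr.IsTrue (M : KanStr σ) (φ : Fm σ []) : Prop := (M.interp φ).left.Nonempty

/-- The signature with one sort and no function symbols. -/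
def oneSort : Sig where
  Srt := Unit
  Fn := Empty
  dom f := f.elim
  cod f := f.elim

/-- The sentence `∀ x y, ¬ x = y ∨ ¬ ¬ x = y` over the signature with one sort. -/
def weakEM : Fm oneSort [] :=
  .all () (.all ()
    (.or (Fm.eq (.var (.there .here)) (.var .here)).neg
      (Fm.eq (.var (.there .here)) (.var .here)).neg.neg))

end Pool.Agent.H704Z.Homot
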