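import Mathlib
import Pool.Agent.H704Z.Homot.Defs

/-!
A three-point Kripke model showing that weak excluded middle for equality is not provable.
-/

set_option autoImplicit false

namespace Pool.Agent.H704Z.Homot.Kripke

open Pool.Agent.H704Z.Homot

abbrev W := Option Bool

def le (w w' : W) : Prop := w = none ∨ w = w'

theorem le_rfl' (w : W) : le w w := Or.inr rfl

theorem le_tr {a b c : W} (h : le a b) (h' : le b c) : le a c := by
  rcases h with h | h
  · exact Or.inl h
  · subst h; exact h'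

def E (w : W) (a b : Bool) : Prop := w = some true ∨ a = b

theorem E_mono {w w' : W} {a b : Bool} (h : le w w') (e : E w a b) : E w' a b := by
  rcases e with e | e
  · rcases h with h | h
    · rw [h] at e; cases e
    · exact Or.inl (h ▸ e)
  · exact Or.inr e

theorem E_symm {w : W} {a b : Bool} (e : E w a b) : E w b a := e.imp id Eq.symm

theorem E_trans {w : W} {a b c : Bool} (e : E w a b) (e' : E w b c) : E w a c := by
  rcases e with e | e
  · exact Or.inl e
  · subst e; exact e'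

def Env (Γ : List oneSort.Srt) : Type := ∀ B : oneSort.Srt, Var Γ B → Bool

def Env.cons {Γ : List oneSort.Srt} {A : oneSort.Srt} (a : Bool) (ρ : Env Γ) : Env (A :: Γ)
  | _, .here => a
  | _, .there v => ρ _ v

def eval {Γ : List oneSort.Srt} (ρ : Env Γ) : ∀ {A : oneSort.Srt}, Tm oneSort Γ A → Bool
  | _, .var v => ρ _ v
  | _, .app f _ => f.elim

def force : ∀ {Γ : List oneSort.Srt}, Fm oneSort Γ → W → Env Γ → Prop
  | _, .top, _, _ => True
  | _, .bot, _, _ => False
  | _, .eq s t, w, ρ => E w (eval ρ s) (eval ρ t)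
  | _, .and φ ψ, w, ρ => force φ w ρ ∧ force ψ w ρ
  | _, .or φ ψ, w, ρ => force φ w ρ ∨ force ψ w ρ
  | _, .imp φ ψ, w, ρ => ∀ w', le w w' → force φ w' ρ → force ψ w' ρ
  | _, .all _ φ, w, ρ => ∀ a, force φ w (Env.cons a ρ)
  | _, .ex _ φ, w, ρ => ∃ a, force φ w (Env.cons a ρ)

theorem force_mono {Γ : List oneSort.Srt} (φ : Fm oneSort Γ) :
    ∀ {w w' : W} (ρ : Env Γ), le w w' → force φ w ρ → force φ w' ρ := by
  induction φ with
  | top => intros; trivial
  | bot => intro _ _ _ _ h; exact h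
  | eq s t => intro _ _ _ h e; exact E_mono h e
  | and φ ψ ih ih' => intro _ _ ρ h e; exact ⟨ih ρ h e.1, ih' ρ h e.2⟩
  | or φ ψ ih ih' => intro _ _ ρ h e; exact e.imp (ih ρ h) (ih' ρ h)
  | imp φ ψ _ _ => intro _ _ ρ h e w'' h' hφ; exact e w'' (le_tr h h') hφ
  | all A φ ih => intro _ _ ρ h e a; exact ih _ h (e a)
  | ex A φ ih => rintro _ _ ρ h ⟨a, e⟩; exact ⟨a, ih _ h e⟩

theorem eval_subst {Γ Δ : List oneSort.Srt} (θ : Sub oneSort Γ Δ) (ρ : Env Δ)
    {A : oneSort.Srt} (t : Tm oneSort Γ A) :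
    eval ρ (t.subst θ) = eval (fun B v => eval ρ (θ B v)) t := by
  cases t with
  | var v => rfl
  | app f _ => exact f.elim

theorem eval_congr {Γ : List oneSort.Srt} {w : W} {ρ ρ' : Env Γ}
    (h : ∀ B v, E w (ρ B v) (ρ' B v)) {A : oneSort.Srt} (t : Tm oneSort Γ A) :
    E w (eval ρ t) (eval ρ' t) := by
  cases t with
  | var v => exact h _ v
  | app f _ => exact f.elim

theorem cons_congr {Γ : List oneSort.Srt} {w : W} {ρ ρ' : Env Γ} {A : oneSort.Srt} {a a' : Bool}
    (ha : E w a a') (h : ∀ B v, E w (ρ B v) (ρ' B v)) :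
    ∀ B v, E w (Env.cons (A := A) a ρ B v) (Env.cons (A := A) a' ρ' B v) := by
  intro B v
  cases v with
  | here => exact ha
  | there v => exact h _ v

theorem force_congr {Γ : List oneSort.Srt} (φ : Fm oneSort Γ) :
    ∀ {w : W} {ρ ρ' : Env Γ}, (∀ B v, E w (ρ B v) (ρ' B v)) → force φ w ρ → force φ w ρ' := by
  induction φ with
  | top => intros; trivial
  | bot => intro _ _ _ _ h; exact h
  | eq s t =>
    intro _ _ _ h e
    exact E_trans (E_symm (eval_congr h s)) (E_trans e (eval_congr h t))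
  | and φ ψ ih ih' => intro _ _ _ h e; exact ⟨ih h e.1, ih' h e.2⟩
  | or φ ψ ih ih' => intro _ _ _ h e; exact e.imp (ih h) (ih' h)
  | imp φ ψ ih ih' =>
    intro _ _ _ h e w' hw hφ
    exact ih' (fun B v => E_mono hw (h B v))
      (e w' hw (ih (fun B v => E_symm (E_mono hw (h B v))) hφ))
  | all A φ ih => intro _ _ _ h e a; exact ih (cons_congr (Or.inr rfl) h) (e a)
  | ex A φ ih => rintro _ _ _ h ⟨a, e⟩; exact ⟨a, ih (cons_congr (Or.inr rfl) h) e⟩

theorem eval_lift {Γ Δ : List oneSort.Srt} (θ : Sub oneSort Γ Δ) (ρ : Env Δ) (A : oneSort.Srt)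
    (a : Bool) :
    (fun B v => eval (Env.cons (A := A) a ρ) (θ.lift A B v)) =
      Env.cons (A := A) a (fun B v => eval ρ (θ B v)) := by
  funext B v
  cases v with
  | here => rfl
  | there v =>
    show eval _ ((θ _ v).subst _) = eval ρ (θ _ v)
    rw [eval_subst]
    rfl

theorem force_subst {Γ : List oneSort.Srt} (φ : Fm oneSort Γ) :
    ∀ {Δ : List oneSort.Srt} (θ : Sub oneSort Γ Δ) (w : W) (ρ : Env Δ),
      force (φ.subst θ) w ρ ↔ force φ w (fun B v => eval ρ (θ B v)) := by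
  induction φ with
  | top => intros; rfl
  | bot => intros; rfl
  | eq s t =>
    intro _ θ w ρ
    show E w (eval ρ (s.subst θ)) (eval ρ (t.subst θ)) ↔ _
    rw [eval_subst, eval_subst]
    rfl
  | and φ ψ ih ih' => intro _ θ w ρ; exact and_congr (ih θ w ρ) (ih' θ w ρ)
  | or φ ψ ih ih' => intro _ θ w ρ; exact or_congr (ih θ w ρ) (ih' θ w ρ)
  | imp φ ψ ih ih' =>
    intro _ θ w ρ
    exact forall_congr' fun w' => imp_congr Iff.rfl (imp_congr (ih θ w' ρ) (ih' θ w' ρ))
  | all A φ ih =>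
    intro _ θ w ρ
    refine forall_congr' fun a => ?_
    rw [ih, eval_lift]
  | ex A φ ih =>
    intro _ θ w ρ
    refine exists_congr fun a => ?_
    rw [ih, eval_lift]

theorem force_wk {Γ : List oneSort.Srt} (φ : Fm oneSort Γ) (A : oneSort.Srt) (w : W) (ρ : Env Γ)
    (a : Bool) : force (φ.subst (Sub.wk Γ A)) w (Env.cons a ρ) ↔ force φ w ρ := by
  rw [force_subst]
  rfl

theorem force_inst {Γ : List oneSort.Srt} {A : oneSort.Srt} (φ : Fm oneSort (A :: Γ))
    (t : Tm oneSort Γ A) (w : W) (ρ : Env Γ) :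
    force (φ.subst (Sub.inst t)) w ρ ↔ force φ w (Env.cons (eval ρ t) ρ) := by
  rw [force_subst]
  have : (fun B v => eval ρ (Sub.inst t B v)) = Env.cons (A := A) (eval ρ t) ρ := by
    funext B v
    cases v with
    | here => rfl
    | there v => rfl
  rw [this]

theorem sound {Γ : List oneSort.Srt} {Φ : List (Fm oneSort Γ)} {φ : Fm oneSort Γ}
    (h : Prf Γ Φ φ) : ∀ (w : W) (ρ : Env Γ), (∀ ψ ∈ Φ, force ψ w ρ) → force φ w ρ := by
  induction h with
  | hyp h => intro w ρ H; exact H _ h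
  | topI => intros; trivial
  | botE _ ih => intro w ρ H; exact (ih w ρ H).elim
  | andI _ _ ih ih' => intro w ρ H; exact ⟨ih w ρ H, ih' w ρ H⟩
  | andE₁ _ ih => intro w ρ H; exact (ih w ρ H).1
  | andE₂ _ ih => intro w ρ H; exact (ih w ρ H).2
  | orI₁ _ ih => intro w ρ H; exact Or.inl (ih w ρ H)
  | orI₂ _ ih => intro w ρ H; exact Or.inr (ih w ρ H)
  | orE _ _ _ ih ih₁ ih₂ =>
    intro w ρ H
    rcases ih w ρ H with h | h
    · exact ih₁ w ρ (List.forall_mem_cons.2 ⟨h, H⟩)
    · exact ih₂ w ρ (List.forall_mem_cons.2 ⟨h, H⟩)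
  | impI _ ih =>
    intro w ρ H w' hw hφ
    exact ih w' ρ (List.forall_mem_cons.2 ⟨hφ, fun ψ hψ => force_mono ψ ρ hw (H ψ hψ)⟩)
  | impE _ _ ih ih' => intro w ρ H; exact ih w ρ H w (le_rfl' w) (ih' w ρ H)
  | allI _ ih =>
    intro w ρ H a
    refine ih w _ fun ψ hψ => ?_
    obtain ⟨χ, hχ, rfl⟩ := List.mem_map.1 hψ
    exact (force_wk χ _ w ρ a).2 (H χ hχ)
  | allE t _ ih => intro w ρ H; exact (force_inst _ t w ρ).2 (ih w ρ H _)
  | exI t _ ih => intro w ρ H; exact ⟨_, (force_inst _ t w ρ).1 (ih w ρ H)⟩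
  | exE _ _ ih ih' =>
    intro w ρ H
    obtain ⟨a, ha⟩ := ih w ρ H
    refine (force_wk _ _ w ρ a).1 (ih' w _ (List.forall_mem_cons.2 ⟨ha, fun ψ hψ => ?_⟩))
    obtain ⟨χ, hχ, rfl⟩ := List.mem_map.1 hψ
    exact (force_wk χ _ w ρ a).2 (H χ hχ)
  | eqI t => intro w ρ _; exact Or.inr rfl
  | eqE _ _ ih ih' =>
    intro w ρ H
    refine (force_inst _ _ w ρ).2 (force_congr _ ?_ ((force_inst _ _ w ρ).1 (ih' w ρ H)))
    exact cons_congr (ih w ρ H) fun _ _ => Or.inr rfl

theorem weakEM_not_provable : ¬ Provable weakEM := by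
  intro h
  have h1 := sound h none (fun _ v => nomatch v) (fun _ hψ => nomatch hψ) false true
  rcases h1 with h1 | h1
  · exact h1 (some true) (Or.inl rfl) (Or.inl rfl)
  · refine h1 (some false) (Or.inl rfl) ?_
    intro w' hw e
    rcases hw with hw | hw
    · cases hw
    · subst hw
      rcases e with e | e
      · cases e
      · cases e

end Pool.Agent.H704Z.Homot.Kripke
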