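import Mathlib
import Pool.Agent.H704Z.Homot.Defs

/-!
Weak excluded middle for equality holds in every structure in Kan complexes.
-/

set_option autoImplicit false

open CategoryTheory Limits MonoidalCategory CartesianMonoidalCategory Simplicial Opposite

namespace Pool.Agent.H704Z.Homot

/-- The fibre of `E` over the vertex `x` has a vertex. -/
def Fib {X : SSet.{0}} (E : Over X) (x : X _⦋0⦌) : Prop := ∃ e : E.left _⦋0⦌, E.hom.app _ e = x

/-- The empty simplicial set over `X`. -/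
noncomputable abbrev botO (X : SSet.{0}) : Over X := Over.mk (initial.to X)

theorem initial_not_nonempty : ¬ (⊥_ SSet.{0}).Nonempty := by
  rintro ⟨v⟩
  exact ((initial.to ((⊥ : (Δ[0] : SSet.{0}).Subcomplex) : SSet.{0})).app _ v).2

theorem over_w_app {X : SSet.{0}} {A B : Over X} (f : A ⟶ B) (n : SimplexCategoryᵒᵖ)
    (a : A.left.obj n) : B.hom.app n (f.left.app n a) = A.hom.app n a := by
  exact congrArg (fun g => g.app n a) (Over.w f)

theorem neg_map {X : SSet.{0}} (E Z : Over X) (h : ∀ z : Z.left _⦋0⦌, ¬ Fib E (Z.hom.app _ z)) :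
    Nonempty (Z ⟶ expOver E (botO X)) := by
  have := prod_isLeftAdjoint E
  have hne : ¬ (E ⨯ Z).left.Nonempty := by
    rintro ⟨v⟩
    refine h ((prod.snd : E ⨯ Z ⟶ Z).left.app _ v) ⟨(prod.fst : E ⨯ Z ⟶ E).left.app _ v, ?_⟩
    rw [over_w_app, over_w_app]
  have hi := SSet.isInitialOfNotNonempty hne
  have g : (prod.functor.obj E).obj Z ⟶ botO X :=
    Over.homMk (hi.to _) (hi.hom_ext _ _)
  exact ⟨(Adjunction.ofIsLeftAdjoint (prod.functor.obj E)).homEquiv _ _ g⟩

theorem neg_fib {X : SSet.{0}} (E : Over X) (x : X _⦋0⦌) (h : Fib (expOver E (botO X)) x) :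
    ¬ Fib E x := by
  have := prod_isLeftAdjoint E
  rintro ⟨e, he⟩
  obtain ⟨v, hv⟩ := h
  let D : Over X := Over.mk (SSet.const x : (Δ[0] : SSet.{0}) ⟶ X)
  have f1 : D ⟶ E := Over.homMk (SSet.const e) (by
    show SSet.const e ≫ E.hom = SSet.const x
    rw [SSet.const_comp, he])
  have f2 : D ⟶ expOver E (botO X) := Over.homMk (SSet.const v) (by
    show SSet.const v ≫ (expOver E (botO X)).hom = SSet.const x
    rw [SSet.const_comp, hv])
  have f3 : (prod.functor.obj E).obj D ⟶ botO X :=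
    ((Adjunction.ofIsLeftAdjoint (prod.functor.obj E)).homEquiv _ _).symm f2
  have f4 : D ⟶ botO X := prod.lift f1 (𝟙 D) ≫ f3
  have : (Δ[0] : SSet.{0}).Nonempty := inferInstance
  exact initial_not_nonempty (SSet.nonempty_of_hom (Y := Δ[0]) f4.left)

/-- The `i`-th vertex of a simplex. -/
def vtx {X : SSet.{0}} {n : SimplexCategoryᵒᵖ} (x : X.obj n) (i : Fin (n.unop.len + 1)) :
    X _⦋0⦌ := X.map (SimplexCategory.const ⦋0⦌ n.unop i).op x

theorem vtx_map {X : SSet.{0}} {n m : SimplexCategoryᵒᵖ} (f : n ⟶ m) (x : X.obj n)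
    (i : Fin (m.unop.len + 1)) : vtx (X.map f x) i = vtx x (f.unop.toOrderHom i) := by
  unfold vtx
  rw [← SimplexCategory.const_comp, op_comp, Functor.map_comp]
  rfl

theorem vtx_zero {X : SSet.{0}} (x : X _⦋0⦌) : vtx x 0 = x := by
  unfold vtx
  simp

theorem vtx_iff {X : SSet.{0}} (N : X _⦋0⦌ → Prop)
    (hN : ∀ e : X _⦋1⦌, N (vtx e 0) ↔ N (vtx e 1)) {n : SimplexCategoryᵒᵖ} (x : X.obj n)
    (i : Fin (n.unop.len + 1)) : N (vtx x i) ↔ N (vtx x 0) := by
  have := hN (X.map (SimplexCategory.mkOfLe (n := n.unop.len) 0 i (Fin.zero_le i)).op x)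
  rw [vtx_map, vtx_map] at this
  exact this.symm

/-- The simplices whose first vertex satisfies `N`. -/
def part {X : SSet.{0}} (N : X _⦋0⦌ → Prop) (hN : ∀ e : X _⦋1⦌, N (vtx e 0) ↔ N (vtx e 1)) :
    X.Subcomplex where
  obj n := {x | N (vtx x 0)}
  map := by
    intro n m f x hx
    show N (vtx (X.map f x) 0)
    rw [vtx_map, vtx_iff N hN]
    exact hx

theorem glue {X Y : SSet.{0}} (p : Y ⟶ X) (N : X _⦋0⦌ → Prop)
    (hN : ∀ e : X _⦋1⦌, N (vtx e 0) ↔ N (vtx e 1))
    (f : (part N hN : SSet.{0}) ⟶ Y) (hf : f ≫ p = (part N hN).ι)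
    (g : (part (fun x => ¬ N x) (fun e => not_congr (hN e)) : SSet.{0}) ⟶ Y)
    (hg : g ≫ p = (part (fun x => ¬ N x) (fun e => not_congr (hN e))).ι) :
    ∃ s : X ⟶ Y, s ≫ p = 𝟙 X := by
  classical
  refine ⟨{ app := fun n => TypeCat.ofHom fun x =>
              if h : N (vtx x 0) then f.app n ⟨x, h⟩ else g.app n ⟨x, h⟩
            naturality := ?_ }, ?_⟩
  · intro n m a
    ext x
    by_cases h : N (vtx x 0)
    · have h' : N (vtx (X.map a x) 0) := (part N hN).map a h
      have := congrArg (fun k => k ⟨x, h⟩) (f.naturality a)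
      simp [h, h']
      exact this
    · have h' : ¬ N (vtx (X.map a x) 0) :=
        (part (fun x => ¬ N x) (fun e => not_congr (hN e))).map a h
      have := congrArg (fun k => k ⟨x, h⟩) (g.naturality a)
      simp [h, h']
      exact this
  · ext n x
    by_cases h : N (vtx x 0)
    · have := congrArg (fun k => k.app n ⟨x, h⟩) hf
      simp [h]
      exact this
    · have := congrArg (fun k => k.app n ⟨x, h⟩) hg
      simp [h]
      exact this

theorem wem_section {X : SSet.{0}} (E : Over X)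
    (hE : ∀ e : X _⦋1⦌, Fib E (vtx e 0) ↔ Fib E (vtx e 1)) :
    Nonempty (Over.mk (𝟙 X) ⟶
      (expOver E (botO X) ⨿ expOver (expOver E (botO X)) (botO X))) := by
  obtain ⟨f⟩ := neg_map (expOver E (botO X)) (Over.mk (part (Fib E) hE).ι) (by
    intro z hz
    refine neg_fib E _ hz ?_
    have := z.2
    change Fib E (vtx z.1 0) at this
    rw [vtx_zero] at this
    exact this)
  obtain ⟨g⟩ := neg_map E (Over.mk (part (fun x => ¬ Fib E x) (fun e => not_congr (hE e))).ι) (by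
    intro z
    have := z.2
    change ¬ Fib E (vtx z.1 0) at this
    rw [vtx_zero] at this
    exact this)
  obtain ⟨s, hs⟩ := glue (expOver E (botO X) ⨿ expOver (expOver E (botO X)) (botO X)).hom
    (Fib E) hE (f ≫ coprod.inr).left (Over.w _) (g ≫ coprod.inl).left (Over.w _)
  exact ⟨Over.homMk s hs⟩

theorem forall_section {X Y : SSet.{0}} (p : Y ⟶ X) (E : Over Y)
    (h : Nonempty (Over.mk (𝟙 Y) ⟶ E)) : Nonempty (Over.mk (𝟙 X) ⟶ (forallAlong p).obj E) := by
  have := pullback_isLeftAdjoint p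
  obtain ⟨s⟩ := h
  have t : (Over.pullback p).obj (Over.mk (𝟙 X)) ⟶ Over.mk (𝟙 Y) :=
    Over.homMk ((Over.pullback p).obj (Over.mk (𝟙 X))).hom (by simp)
  exact ⟨(Adjunction.ofIsLeftAdjoint (Over.pullback p)).homEquiv _ _ (t ≫ s)⟩

/-- There is an edge from `x` to `y`. -/
def R (A : SSet.{0}) (x y : A _⦋0⦌) : Prop :=
  ∃ f : (Δ[1] : SSet.{0}) ⟶ A, SSet.stdSimplex.δ 1 ≫ f = SSet.const x ∧
    SSet.stdSimplex.δ 0 ≫ f = SSet.const y

theorem R_refl (A : SSet.{0}) (x : A _⦋0⦌) : R A x x := ⟨SSet.const x, rfl, rfl⟩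

theorem R_eucl (A : SSet.{0}) [SSet.KanComplex A] {x y z : A _⦋0⦌} (h : R A x y) (h' : R A x z) :
    R A y z := by
  obtain ⟨f, hf1, hf0⟩ := h
  obtain ⟨g, hg1, hg0⟩ := h'
  let F : ∀ (j : Fin 3) (_ : j ≠ 0), (Δ[1] : SSet.{0}) ⟶ A := fun j _ => if j = 1 then g else f
  have hF : SSet.horn.IsCompatible (n := 1) F := by
    intro j k hj hk hjk
    have h12 : ∀ j k : Fin 3, j ≠ 0 → j < k → j = 1 ∧ k = 2 := by decide
    obtain ⟨h1, h2⟩ := h12 j k hj hjk
    subst h1 h2
    exact hg1.trans hf1.symm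
  obtain ⟨φ, hφ⟩ := hF.exists_lift_of_kanComplex
  have e1 : SSet.stdSimplex.δ 1 ≫ φ = g := hφ 1 (by decide)
  have e2 : SSet.stdSimplex.δ 2 ≫ φ = f := hφ 2 (by decide)
  have i1 : (SSet.stdSimplex.{0}.δ (1 : Fin 2) ≫ SSet.stdSimplex.{0}.δ (0 : Fin 3)) =
      SSet.stdSimplex.{0}.δ (0 : Fin 2) ≫ SSet.stdSimplex.{0}.δ (2 : Fin 3) := by decide
  have i2 : (SSet.stdSimplex.{0}.δ (0 : Fin 2) ≫ SSet.stdSimplex.{0}.δ (0 : Fin 3)) =
      SSet.stdSimplex.{0}.δ (0 : Fin 2) ≫ SSet.stdSimplex.{0}.δ (1 : Fin 3) := by decide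
  refine ⟨SSet.stdSimplex.δ 0 ≫ φ, ?_, ?_⟩
  · rw [← Category.assoc, i1, Category.assoc, e2, hf0]
  · rw [← Category.assoc, i2, Category.assoc, e1, hg0]

theorem R_symm (A : SSet.{0}) [SSet.KanComplex A] {x y : A _⦋0⦌} (h : R A x y) : R A y x :=
  R_eucl A h (R_refl A x)

theorem R_trans (A : SSet.{0}) [SSet.KanComplex A] {x y z : A _⦋0⦌} (h : R A x y) (h' : R A y z) :
    R A x z := R_eucl A (R_symm A h) h'

theorem R_edge (A : SSet.{0}) (e : A _⦋1⦌) : R A (vtx e 0) (vtx e 1) := by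
  refine ⟨SSet.yonedaEquiv.symm e, ?_, ?_⟩
  · rw [SSet.stdSimplex.δ_one_eq_const, SSet.const_comp]
    rfl
  · rw [SSet.stdSimplex.δ_zero_eq_const, SSet.const_comp]
    rfl

theorem const_inj {A : SSet.{0}} {x y : A _⦋0⦌}
    (h : (SSet.const x : (Δ[0] : SSet.{0}) ⟶ A) = SSet.const y) : x = y := by
  rw [← SSet.yonedaEquiv_const x, h, SSet.yonedaEquiv_const]

theorem comp_endpoint {W A : SSet.{0}} (g : W ⟶ (ihom (Δ[1] : SSet.{0})).obj A) (i : Fin 2) :
    g ≫ endpoint A i =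
      lift (SSet.const (SSet.stdSimplex.obj₀Equiv.symm i)) (𝟙 W) ≫ MonoidalClosed.uncurry g := by
  unfold endpoint
  rw [MonoidalClosed.uncurry_eq, ← Category.assoc, ← Category.assoc]
  congr 1

theorem path_iff (A : SSet.{0}) (x y : A _⦋0⦌) :
    (∃ g : (Δ[0] : SSet.{0}) ⟶ (ihom (Δ[1] : SSet.{0})).obj A,
      g ≫ endpoint A 0 = SSet.const x ∧ g ≫ endpoint A 1 = SSet.const y) ↔ R A x y := by
  constructor
  · rintro ⟨g, h0, h1⟩
    rw [comp_endpoint] at h0 h1
    refine ⟨lift (𝟙 _) (SSet.const (SSet.stdSimplex.obj₀Equiv.symm 0)) ≫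
      MonoidalClosed.uncurry g, ?_, ?_⟩
    · rw [← h0, ← Category.assoc]
      congr 1
      apply CartesianMonoidalCategory.hom_ext
      · simp [SSet.stdSimplex.δ_one_eq_const]
      · exact SSet.stdSimplex.ext₀
    · rw [← h1, ← Category.assoc]
      congr 1
      apply CartesianMonoidalCategory.hom_ext
      · simp [SSet.stdSimplex.δ_zero_eq_const]
      · exact SSet.stdSimplex.ext₀
  · rintro ⟨f, h1, h0⟩
    refine ⟨MonoidalClosed.curry (fst _ _ ≫ f), ?_, ?_⟩
    · rw [comp_endpoint, MonoidalClosed.uncurry_curry, ← Category.assoc, lift_fst, ← h1,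
        SSet.stdSimplex.δ_one_eq_const]
    · rw [comp_endpoint, MonoidalClosed.uncurry_curry, ← Category.assoc, lift_fst, ← h0,
        SSet.stdSimplex.δ_zero_eq_const]

theorem const_app {W A : SSet.{0}} (x : A _⦋0⦌) (w : W _⦋0⦌) :
    (SSet.const x : W ⟶ A).app _ w = x := by
  simp

theorem fib_pb_iff {X A P D : SSet.{0}} (v : D _⦋0⦌) (s t : X ⟶ A) (a b : P ⟶ A) (x : X _⦋0⦌) :
    Fib ((Over.pullback (lift s t)).obj (Over.mk (lift a b))) x ↔
      ∃ g : D ⟶ P, g ≫ a = SSet.const (s.app _ x) ∧ g ≫ b = SSet.const (t.app _ x) := by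
  constructor
  · rintro ⟨e, he⟩
    have hc : pullback.fst (lift a b) (lift s t) ≫ lift a b =
        pullback.snd (lift a b) (lift s t) ≫ lift s t := pullback.condition
    let e' : (pullback (lift a b) (lift s t)) _⦋0⦌ := e
    have he' : (SSet.const e' : D ⟶ _) ≫ pullback.snd (lift a b) (lift s t)
        = SSet.const x := by
      rw [SSet.const_comp]
      exact congrArg SSet.const he
    have ha : pullback.fst (lift a b) (lift s t) ≫ a = pullback.snd (lift a b) (lift s t) ≫ s := by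
      simpa using congrArg (· ≫ fst A A) hc
    have hb : pullback.fst (lift a b) (lift s t) ≫ b = pullback.snd (lift a b) (lift s t) ≫ t := by
      simpa using congrArg (· ≫ snd A A) hc
    refine ⟨SSet.const e' ≫ pullback.fst (lift a b) (lift s t), ?_, ?_⟩
    · rw [Category.assoc, ha, ← Category.assoc, he', SSet.const_comp]
    · rw [Category.assoc, hb, ← Category.assoc, he', SSet.const_comp]
  · rintro ⟨g, h0, h1⟩
    have hw : g ≫ lift a b = SSet.const x ≫ lift s t := by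
      apply CartesianMonoidalCategory.hom_ext
      · rw [Category.assoc, Category.assoc, lift_fst, lift_fst, SSet.const_comp, h0]
      · rw [Category.assoc, Category.assoc, lift_snd, lift_snd, SSet.const_comp, h1]
    refine ⟨(pullback.lift g (SSet.const x) hw).app _ v, ?_⟩
    have := congrArg (fun k => k.app _ v) (pullback.lift_snd g (SSet.const x) hw)
    exact this.trans (const_app x v)

theorem fib_eq_iff {X A : SSet.{0}} (s t : X ⟶ A) (x : X _⦋0⦌) :
    Fib ((Over.pullback (lift s t)).obj (pathSpace A)) x ↔ R A (s.app _ x) (t.app _ x) := by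
  rw [← path_iff]
  exact fib_pb_iff (D := Δ[0]) (SSet.stdSimplex.obj₀Equiv.symm 0) s t _ _ x

theorem app_vtx {X A : SSet.{0}} (s : X ⟶ A) {n : SimplexCategoryᵒᵖ} (x : X.obj n)
    (i : Fin (n.unop.len + 1)) : s.app _ (vtx x i) = vtx (s.app _ x) i :=
  congrArg (fun k => k x) (s.naturality (SimplexCategory.const ⦋0⦌ n.unop i).op)

theorem eq_edge_inv {X A : SSet.{0}} [SSet.KanComplex A] (s t : X ⟶ A) (e : X _⦋1⦌) :
    Fib ((Over.pullback (lift s t)).obj (pathSpace A)) (vtx e 0) ↔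
      Fib ((Over.pullback (lift s t)).obj (pathSpace A)) (vtx e 1) := by
  rw [fib_eq_iff, fib_eq_iff, app_vtx, app_vtx, app_vtx, app_vtx]
  have h1 := R_edge A (s.app _ e)
  have h2 := R_edge A (t.app _ e)
  exact ⟨fun h => R_trans A (R_symm A h1) (R_trans A h h2),
    fun h => R_trans A h1 (R_trans A h (R_symm A h2))⟩

theorem weakEM_true (M : KanStr oneSort) : M.IsTrue weakEM := by
  have := M.kan ()
  have h := forall_section (fst (ctx M.obj []) (M.obj ())) _
    (forall_section (fst (ctx M.obj [()]) (M.obj ())) _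
      (wem_section _ (eq_edge_inv (A := M.obj ())
        (M.tm (Γ := [(), ()]) (.var (.there .here))) (M.tm (Γ := [(), ()]) (.var .here)))))
  obtain ⟨s⟩ := h
  exact ⟨s.left.app _ PUnit.unit⟩

end Pool.Agent.H704Z.Homot
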